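import Pool.Agent.REDU.Tr
import Pool.Agent.RED.Alg

/-!
# Tate's conjecture for a family of `C_ab` curves with `r` marked points: the cases `r = 0` and
`r = 1` imply all cases
-/

namespace Pool.Agent.REDU

open Polynomial Pool.Agent.CAB Pool.Agent.Pen Pool.Agent.LSU

theorem reduction (S : PolyRing) [IsDomain S.R] [Algebra.FiniteType ℤ S.R] (d : ℕ)
    (hd : HasDim S.R d) (a b : ℕ) (hco : Nat.Coprime a b) (ha : 2 ≤ a) (hb : 2 ≤ b)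
    (hP : IsCab a b S.P) (hs : Smooth S.P) (n₀ n₁ : ℕ)
    (hr0 : HasRank (S.power 0) n₀) (hr1 : HasRank (S.power 1) n₁)
    (he0 : ∃ ε : ℝ, 0 < ε ∧ EulerOrder (S.power 0) (d - ε) (d + 1 / 2) d n₀)
    (he1 : ∃ ε : ℝ, 0 < ε ∧ EulerOrder (S.power 1) (d + 1 - ε) (d + 1 + 1 / 2) (d + 1) n₁) :
    n₀ ≤ n₁ ∧ ∀ r : ℕ, HasRank (S.power r) (n₀ + r * (n₁ - n₀)) ∧
      ∃ ε : ℝ, 0 < ε ∧ EulerOrder (S.power r) (d + r - ε) (d + r + 1 / 2) (d + r)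
        (n₀ + r * (n₁ - n₀)) := by
  have hn : Num a b := ⟨hco, ha, hb⟩
  obtain ⟨hle, hr⟩ := RED.rank_affine hn hP hs hr0 hr1
  refine ⟨hle, fun r => ⟨hr r, ?_⟩⟩
  have hT := trOn_of hn hP hd
  have h := order_affine hT (n₀ := n₀) (n₁ := n₁) (n := n₀ + r * (n₁ - n₀)) ?_ ?_ r ?_
  · obtain ⟨ε, hε, h⟩ := h
    refine ⟨ε, hε, ?_⟩
    have e : ((((d : ℝ) + r : ℝ)) : ℂ) = (d : ℂ) + r := by push_cast; rfl
    rw [e] at h
    exact h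
  · obtain ⟨ε, hε, h⟩ := he0
    exact ⟨ε, hε, h⟩
  · obtain ⟨ε, hε, h⟩ := he1
    refine ⟨ε, hε, ?_⟩
    have e : ((((d : ℝ) + 1 : ℝ)) : ℂ) = (d : ℂ) + 1 := by push_cast; rfl
    rw [e]
    exact h
  · push_cast [Nat.cast_sub hle]
    ring

end Pool.Agent.REDU
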