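import Pool.Agent.RED.Ana
import Pool.Agent.WPU.Weil
import Pool.Agent.LSU.All

/-!
# The orders of the Euler products over the fibre powers of a family are affine in the number of
marked points, with weaker bounds for the traces

As RED/Ana.lean. The bound for the traces is `C w`, `w = √q` over the prime fields and `q ^ (3 / 4)`
over the others.
-/

namespace Pool.Agent.REDU

open Polynomial Finset Pool.Agent.Hhelper85 Pool.Agent.SZ Pool.Agent.CAB Pool.Agent.LSA
open Pool.Agent.RED

/-- The bounds for the traces of the members, and the convergence that they give. -/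
def TrOn (S : PolyRing) (D : ℝ) : Prop := ∃ (C : ℝ) (w : Nat.Primes × ℕ → ℝ), 0 ≤ C ∧
  (∀ x, 0 ≤ w x) ∧ (∀ x, w x ≤ qx x) ∧
  (∀ x : Nat.Primes × ℕ, x.2 ≠ 0 → ∀ ψ : S.R →+* GF x.1 x.2,
    |(af (S.P.map (mapRingHom ψ)) : ℝ)| ≤ C * w x) ∧
  (∀ σ : ℝ, D + 1 / 2 < σ → Summable fun x => (hN S.R x : ℝ) * w x * pr σ x) ∧
  (∀ σ : ℝ, D - 1 / 4 < σ → Summable fun x => (hN S.R x : ℝ) * (w x ^ 3 / qx x ^ 2) * pr σ x)

section bounds

variable {C : ℝ} (hC : 0 ≤ C)
include hC

lemma abs_term {q a w : ℝ} (hq : 1 ≤ q) (hw : w ≤ q) (ha : |a| ≤ C * w) (r : ℕ) :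
    |(q - a) ^ r * a| ≤ (1 + C) ^ r * C * (q ^ r * w) := by
  have h0 : (0 : ℝ) ≤ q := by linarith
  have h1 : |q - a| ≤ (1 + C) * q := by
    calc |q - a| ≤ |q| + |a| := abs_sub _ _
      _ ≤ q + C * w := by rw [abs_of_nonneg h0]; linarith
      _ ≤ q + C * q := by gcongr
      _ = (1 + C) * q := by ring
  rw [abs_mul, abs_pow]
  calc |q - a| ^ r * |a| ≤ ((1 + C) * q) ^ r * (C * w) := by gcongr
    _ = (1 + C) ^ r * C * (q ^ r * w) := by rw [mul_pow]; ring

lemma err_term (r : ℕ) : ∃ M : ℝ, 0 ≤ M ∧ ∀ q a w : ℝ, 1 ≤ q → w ≤ q → |a| ≤ C * w →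
    |(q - a) ^ r * a - (1 - r) * q ^ r * a - r * q ^ (r - 1) * ((q - a) * a)| ≤
      M * (q ^ r * (w ^ 3 / q ^ 2)) := by
  obtain ⟨M, hM, h⟩ := real_exp r hC
  refine ⟨M * C ^ 3, by positivity, fun q a w hq hw ha => ?_⟩
  have h0 : (0 : ℝ) < q := by linarith
  have h1 := h q a hq (ha.trans (mul_le_mul_of_nonneg_left hw hC))
  set e := |(q - a) ^ r * a - (1 - r) * q ^ r * a - r * q ^ (r - 1) * ((q - a) * a)| with he
  have h2 : |a| ^ 3 ≤ C ^ 3 * w ^ 3 := by
    calc |a| ^ 3 ≤ (C * w) ^ 3 := by gcongr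
      _ = C ^ 3 * w ^ 3 := by ring
  have h3 : e * q ^ 2 ≤ (M * C ^ 3 * (q ^ r * (w ^ 3 / q ^ 2))) * q ^ 2 := by
    calc e * q ^ 2 ≤ M * (q ^ r * |a| ^ 3) := h1
      _ ≤ M * (q ^ r * (C ^ 3 * w ^ 3)) := by gcongr
      _ = (M * C ^ 3 * (q ^ r * (w ^ 3 / q ^ 2))) * q ^ 2 := by
        field_simp
  exact le_of_mul_le_mul_right h3 (by positivity)

end bounds

lemma pow_qx_pr (r : ℕ) (σ : ℝ) (x : Nat.Primes × ℕ) : qx x ^ r * pr σ x = pr (σ - r) x :=
  pow_mul_pr r σ x

/-- Absolute convergence. -/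
theorem summable_pow {S : PolyRing} [Algebra.FiniteType ℤ S.R] {D : ℝ} (hT : TrOn S D) (r : ℕ)
    {s : ℂ} (hs : D + r + 1 / 2 < s.re) : Summable (vP (S.power r).P s) := by
  obtain ⟨C, w, hC, hw0, hw1, hC', hs1, -⟩ := hT
  rw [← summable_norm_iff]
  rw [summable_sigma_of_nonneg (fun _ => norm_nonneg _)]
  refine ⟨fun x => ?_, ?_⟩
  · have := finite_hom (R := (S.power r).R) (GF x.1 x.2)
    exact Summable.of_finite
  · apply Summable.of_nonneg_of_le (f := fun x => (1 + C) ^ r * C * (hN S.R x * w x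
      * pr (s.re - r) x))
    · intro x
      exact tsum_nonneg (fun _ => norm_nonneg _)
    · intro x
      have := finite_hom (R := (S.power r).R) (GF x.1 x.2)
      have := finite_hom (R := S.R) (GF x.1 x.2)
      let _ := Fintype.ofFinite ((S.power r).R →+* GF x.1 x.2)
      let _ := Fintype.ofFinite (S.R →+* GF x.1 x.2)
      rw [tsum_fintype]
      simp only [norm_vP]
      rw [← Finset.sum_mul]
      by_cases hx : x.2 = 0
      · obtain ⟨p, n⟩ := x
        simp only at hx
        subst hx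
        simp [pr]
      · have hfin := finite_GF hx
        rw [← pow_qx_pr]
        have h1 := sum_pow (K := GF x.1 x.2) S r (fun Q => |(af Q : ℝ)|)
        rw [finsum_eq_sum_of_fintype, finsum_eq_sum_of_fintype] at h1
        rw [h1]
        have h2 : ∑ f : S.R →+* GF x.1 x.2, (NF (S.P.map (mapRingHom f)) : ℝ) ^ r *
            |(af (S.P.map (mapRingHom f)) : ℝ)| ≤
            ∑ f : S.R →+* GF x.1 x.2, (1 + C) ^ r * C * (qx x ^ r * w x) := by
          apply Finset.sum_le_sum
          intro f _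
          have h3 := abs_term hC (one_le_qx x) (hw1 x) (hC' x hx f) r
          rw [abs_mul, abs_pow] at h3
          have h4 : |qx x - (af (S.P.map (mapRingHom f)) : ℝ)| = NF (S.P.map (mapRingHom f)) := by
            rw [← card_eq hx, ← NF_eq]
            exact abs_of_nonneg (Nat.cast_nonneg _)
          rw [h4] at h3
          exact h3
        rw [Finset.sum_const, nsmul_eq_mul, Finset.card_univ] at h2
        have h3 : (hN S.R x : ℝ) = (Fintype.card (S.R →+* GF x.1 x.2) : ℝ) := by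
          rw [hN, Nat.card_eq_fintype_card]
        refine (mul_le_mul_of_nonneg_right h2 (pr_nonneg _ _)).trans (le_of_eq ?_)
        rw [h3]
        ring
    · apply Summable.mul_left
      apply hs1
      linarith

/-- The summability of the sums of the traces. -/
theorem summable_TT {S : PolyRing} [Algebra.FiniteType ℤ S.R] {D : ℝ} (hT : TrOn S D)
    (r : ℕ) {σ : ℝ} (hs : D + r + 1 / 2 < σ) :
    Summable fun x => |TT (S.power r) x| * pr σ x := by
  obtain ⟨C, w, hC, hw0, hw1, hC', hs1, -⟩ := hT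
  apply Summable.of_nonneg_of_le (f := fun x => (1 + C) ^ r * C * (hN S.R x * w x
      * pr (σ - r) x))
  · intro x
    exact mul_nonneg (abs_nonneg _) (pr_nonneg _ _)
  · intro x
    by_cases hx : x.2 = 0
    · obtain ⟨p, n⟩ := x
      simp only at hx
      subst hx
      simp [pr]
    · have := finite_GF hx
      have := finite_hom (R := S.R) (GF x.1 x.2)
      let _ := Fintype.ofFinite (S.R →+* GF x.1 x.2)
      rw [← pow_qx_pr, TT_power S r hx, finsum_eq_sum_of_fintype]
      have h2 : |∑ f : S.R →+* GF x.1 x.2, (qx x - af (S.P.map (mapRingHom f))) ^ r *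
            (af (S.P.map (mapRingHom f)) : ℝ)| ≤
            ∑ f : S.R →+* GF x.1 x.2, (1 + C) ^ r * C * (qx x ^ r * w x) := by
        refine (Finset.abs_sum_le_sum_abs _ _).trans (Finset.sum_le_sum fun f _ => ?_)
        exact abs_term hC (one_le_qx x) (hw1 x) (hC' x hx f) r
      rw [Finset.sum_const, nsmul_eq_mul, Finset.card_univ] at h2
      have h3 : (hN S.R x : ℝ) = (Fintype.card (S.R →+* GF x.1 x.2) : ℝ) := by
        rw [hN, Nat.card_eq_fintype_card]
      refine (mul_le_mul_of_nonneg_right h2 (pr_nonneg _ _)).trans (le_of_eq ?_)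
      rw [h3]
      ring
  · apply Summable.mul_left
    apply hs1
    linarith

theorem negl_err {S : PolyRing} [Algebra.FiniteType ℤ S.R] {D : ℝ} (hT : TrOn S D)
    (r : ℕ) {σ : ℝ} (hs : D + r - 1 / 4 < σ) :
    Summable fun x => |Err S r x| * pr σ x := by
  obtain ⟨C, w, hC, hw0, hw1, hC', -, hs3⟩ := hT
  obtain ⟨M, hM, hM'⟩ := err_term hC r
  apply Summable.of_nonneg_of_le (f := fun x => M * (hN S.R x * (w x ^ 3 / qx x ^ 2) *
    pr (σ - r) x))
  · intro x
    exact mul_nonneg (abs_nonneg _) (pr_nonneg _ _)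
  · intro x
    by_cases hx : x.2 = 0
    · obtain ⟨p, n⟩ := x
      simp only at hx
      subst hx
      simp [pr]
    · have := finite_GF hx
      have := finite_hom (R := S.R) (GF x.1 x.2)
      let _ := Fintype.ofFinite (S.R →+* GF x.1 x.2)
      have hq := one_le_qx x
      have hq0 : 0 < qx x := by linarith
      have h2 : |Err S r x| ≤ hN S.R x * (M * (qx x ^ r * (w x ^ 3 / qx x ^ 2))) := by
        rw [Err, TT_power S r hx, TT_power S 0 hx, TT_power S 1 hx]
        simp only [finsum_eq_sum_of_fintype, pow_zero, one_mul, pow_one]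
        rw [Finset.mul_sum, Finset.mul_sum, ← Finset.sum_sub_distrib, ← Finset.sum_sub_distrib]
        refine (Finset.abs_sum_le_sum_abs _ _).trans ?_
        have h3 : (hN S.R x : ℝ) = (Fintype.card (S.R →+* GF x.1 x.2) : ℝ) := by
          rw [hN, Nat.card_eq_fintype_card]
        have h4 : ∑ f : S.R →+* GF x.1 x.2, M * (qx x ^ r * (w x ^ 3 / qx x ^ 2)) =
            hN S.R x * (M * (qx x ^ r * (w x ^ 3 / qx x ^ 2))) := by
          rw [Finset.sum_const, nsmul_eq_mul, Finset.card_univ, h3]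
        rw [← h4]
        apply Finset.sum_le_sum
        intro f _
        exact hM' _ _ _ hq (hw1 x) (hC' x hx f)
      calc |Err S r x| * pr σ x ≤ (hN S.R x * (M * (qx x ^ r * (w x ^ 3 / qx x ^ 2)))) * pr σ x :=
            mul_le_mul_of_nonneg_right h2 (pr_nonneg _ _)
        _ = M * (hN S.R x * (w x ^ 3 / qx x ^ 2) * (qx x ^ r * pr σ x)) := by ring
        _ = _ := by rw [pow_qx_pr]
  · apply Summable.mul_left
    apply hs3
    linarith

end Pool.Agent.REDU
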