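import Pool.Agent.REDU.Ana
import Pool.Agent.RED.Ord

/-!
# The order of the Euler product is affine in the number of marked points
-/

namespace Pool.Agent.REDU

open Polynomial Pool.Agent.Hhelper85 Pool.Agent.SZ Pool.Agent.CAB Pool.Agent.LSA Pool.Agent.Pen
open Pool.Agent.RED (TT Err exp_tt mero_shift order_shift pow_pw tsum_vP)

/-- **The order of the Euler product is affine in the number of marked points.** -/
theorem order_affine {S : PolyRing} [Algebra.FiniteType ℤ S.R] {D : ℝ} (hT : TrOn S D)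
    {n₀ n₁ n : ℕ}
    (h0 : ∃ ε : ℝ, 0 < ε ∧ EulerOrder (S.power 0) (D - ε) (D + 1 / 2) (D : ℝ) n₀)
    (h1 : ∃ ε : ℝ, 0 < ε ∧ EulerOrder (S.power 1) (D + 1 - ε) (D + 1 + 1 / 2) ((D + 1 : ℝ) : ℂ) n₁)
    (r : ℕ) (hn : (n : ℤ) = (1 - r) * n₀ + r * n₁) :
    ∃ ε : ℝ, 0 < ε ∧ EulerOrder (S.power r) (D + r - ε) (D + r + 1 / 2) ((D + r : ℝ) : ℂ) n := by
  obtain ⟨ε0, hε0, Z0, m0, p0, o0⟩ := h0
  obtain ⟨ε1, hε1, Z1, m1, p1, o1⟩ := h1
  set ε := min (min ε0 ε1) (1 / 4) with hε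
  have hε_pos : 0 < ε := lt_min (lt_min hε0 hε1) (by norm_num)
  have hle0 : ε ≤ ε0 := (min_le_left _ _).trans (min_le_left _ _)
  have hle1 : ε ≤ ε1 := (min_le_left _ _).trans (min_le_right _ _)
  have hle2 : ε ≤ 1 / 4 := min_le_right _ _
  have hErr : ∀ σ : ℝ, D + r - 1 / 4 < σ → Summable fun x => |Err S r x| * pr σ x :=
    fun σ hσ => negl_err hT r hσ
  have hcr : ((r : ℝ) : ℂ) = (r : ℂ) := by norm_cast
  have hcr1 : (((r : ℝ) - 1 : ℝ) : ℂ) = (r : ℂ) - 1 := by push_cast; ring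
  refine ⟨ε, hε_pos, fun s => Z0 (s - ((r : ℝ) : ℂ)) ^ (1 - (r : ℤ)) *
    Z1 (s - (((r : ℝ) - 1 : ℝ) : ℂ)) ^ (r : ℤ) * Complex.exp (SZ.LT (Err S r) s), ?_, ?_, ?_⟩
  · intro s hs
    have hs' : D + r - ε < s.re := hs
    have e1 : MeromorphicAt (fun s => Z0 (s - ((r : ℝ) : ℂ)) ^ (1 - (r : ℤ))) s :=
      (mero_shift m0 r s (by
        show D - ε0 + r < s.re
        linarith)).zpow _
    have e2 : MeromorphicAt (fun s => Z1 (s - (((r : ℝ) - 1 : ℝ) : ℂ)) ^ (r : ℤ)) s :=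
      (mero_shift m1 ((r : ℝ) - 1) s (by
        show D + 1 - ε1 + (r - 1) < s.re
        linarith)).zpow _
    have e3 : MeromorphicAt (fun s => Complex.exp (SZ.LT (Err S r) s)) s :=
      (analyticAt_LT hErr (by linarith)).cexp.meromorphicAt
    exact (e1.mul e2).mul e3
  · intro s hs
    have hsum : Summable (vP (S.power r).P s) := summable_pow hT r (by linarith)
    have h3 := euler_product (S.power r).P hsum
    rw [tsum_vP hsum] at h3
    have hw0 : D + (0 : ℕ) + 1 / 2 < (s - ((r : ℝ) : ℂ)).re := by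
      simp only [Complex.sub_re, Complex.ofReal_re, Nat.cast_zero]
      linarith
    have hw1 : D + (1 : ℕ) + 1 / 2 < (s - (((r : ℝ) - 1 : ℝ) : ℂ)).re := by
      simp only [Complex.sub_re, Complex.ofReal_re, Nat.cast_one]
      linarith
    have hz0 : Complex.exp (SZ.LT (TT (S.power 0)) (s - ((r : ℝ) : ℂ))) =
        Z0 (s - ((r : ℝ) : ℂ)) :=
      exp_tt (summable_pow hT 0 hw0) (p0 _ (by
        simp only [Nat.cast_zero, add_zero] at hw0
        exact hw0))
    have hz1 : Complex.exp (SZ.LT (TT (S.power 1)) (s - (((r : ℝ) - 1 : ℝ) : ℂ))) =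
        Z1 (s - (((r : ℝ) - 1 : ℝ) : ℂ)) :=
      exp_tt (summable_pow hT 1 hw1) (p1 _ (by
        simp only [Nat.cast_one] at hw1
        exact hw1))
    have hs0 : Summable fun x => ((TT (S.power 0) x : ℝ) : ℂ) * pw (s - ((r : ℝ) : ℂ)) x :=
      summable_LT (D := D + (0 : ℕ) + 1 / 2) (fun σ hσ => summable_TT hT 0 hσ) hw0
    have hs1 : Summable fun x => ((TT (S.power 1) x : ℝ) : ℂ) *
        pw (s - (((r : ℝ) - 1 : ℝ) : ℂ)) x :=
      summable_LT (D := D + (1 : ℕ) + 1 / 2) (fun σ hσ => summable_TT hT 1 hσ) hw1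
    have hsE : Summable fun x => ((Err S r x : ℝ) : ℂ) * pw s x :=
      summable_LT hErr (by linarith)
    have key : SZ.LT (TT (S.power r)) s =
        ((1 - (r : ℤ) : ℤ) : ℂ) * SZ.LT (TT (S.power 0)) (s - ((r : ℝ) : ℂ)) +
        ((r : ℤ) : ℂ) * SZ.LT (TT (S.power 1)) (s - (((r : ℝ) - 1 : ℝ) : ℂ)) +
        SZ.LT (Err S r) s := by
      rw [SZ.LT, SZ.LT, SZ.LT, SZ.LT, ← tsum_mul_left, ← tsum_mul_left,
        ← (hs0.mul_left _).tsum_add (hs1.mul_left _),
        ← ((hs0.mul_left _).add (hs1.mul_left _)).tsum_add hsE]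
      apply tsum_congr
      intro x
      have e1 := qx_pow_mul_pw r s x
      have e2 := pow_pw r s x
      rw [hcr, hcr1]
      have e3 : (TT (S.power r) x : ℂ) = ((Err S r x : ℝ) : ℂ) +
          (1 - r) * ((qx x ^ r : ℝ) : ℂ) * (TT (S.power 0) x : ℂ) +
          r * ((qx x ^ (r - 1) : ℝ) : ℂ) * (TT (S.power 1) x : ℂ) := by
        rw [Err]
        push_cast
        ring
      rw [e3]
      push_cast at e1 e2 ⊢
      linear_combination ((1 - (r : ℂ)) * (TT (S.power 0) x : ℂ)) * e1 +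
        (TT (S.power 1) x : ℂ) * e2
    rw [key, Complex.exp_add, Complex.exp_add, Complex.exp_int_mul, Complex.exp_int_mul, hz0,
      hz1] at h3
    exact h3
  · have q0 := order_shift o0 (r : ℝ)
    have q1 := order_shift o1 ((r : ℝ) - 1)
    have ed : D + 1 + ((r : ℝ) - 1) = D + r := by ring
    rw [ed] at q1
    have a0 : MeromorphicAt (fun s => Z0 (s - ((r : ℝ) : ℂ))) ((D + r : ℝ) : ℂ) :=
      mero_shift m0 r _ (by
        show D - ε0 + r < ((D + r : ℝ) : ℂ).re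
        rw [Complex.ofReal_re]
        linarith)
    have a1 : MeromorphicAt (fun s => Z1 (s - (((r : ℝ) - 1 : ℝ) : ℂ))) ((D + r : ℝ) : ℂ) :=
      mero_shift m1 ((r : ℝ) - 1) _ (by
        show D + 1 - ε1 + (r - 1) < ((D + r : ℝ) : ℂ).re
        rw [Complex.ofReal_re]
        linarith)
    have aE : AnalyticAt ℂ (fun s => Complex.exp (SZ.LT (Err S r) s)) ((D + r : ℝ) : ℂ) :=
      (analyticAt_LT hErr (by
        rw [Complex.ofReal_re]
        linarith)).cexp
    have oE : meromorphicOrderAt (fun s => Complex.exp (SZ.LT (Err S r) s)) ((D + r : ℝ) : ℂ) =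
        0 := by
      rw [aE.meromorphicOrderAt_eq, aE.analyticOrderAt_eq_zero.2 (Complex.exp_ne_zero _)]
      rfl
    have b0 := meromorphicOrderAt_zpow a0 (n := 1 - (r : ℤ))
    have b1 := meromorphicOrderAt_zpow a1 (n := (r : ℤ))
    have hmul := meromorphicOrderAt_mul (a0.zpow (1 - (r : ℤ))) (a1.zpow (r : ℤ))
    have hmul2 := meromorphicOrderAt_mul ((a0.zpow (1 - (r : ℤ))).mul (a1.zpow (r : ℤ)))
      aE.meromorphicAt
    refine hmul2.trans ?_
    rw [hmul, b0, b1, q0, q1, oE, add_zero, hn]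
    norm_cast

end Pool.Agent.REDU
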