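import Pool.Agent.REDU.Ord

/-!
# The bounds for the traces hold for every family of `C_ab` curves over a finitely generated domain
-/

namespace Pool.Agent.REDU

open Polynomial Pool.Agent.Hhelper85 Pool.Agent.SZ Pool.Agent.CAB Pool.Agent.LSA Pool.Agent.LSU

lemma rpow_mul_pr (u σ : ℝ) (x : Nat.Primes × ℕ) : (qx x) ^ u * pr σ x = pr (σ - u) x := by
  have hp : (0 : ℝ) < x.1 := by exact_mod_cast x.1.2.pos
  rw [qx, pr, pr, neg_sub, sub_eq_add_neg, Real.rpow_add hp, mul_pow,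
    ← Real.rpow_natCast ((x.1 : ℝ)) x.2, ← Real.rpow_mul hp.le, mul_comm (x.2 : ℝ) u,
    Real.rpow_mul hp.le, Real.rpow_natCast]
  ring

/-- The powers of the primes. -/
lemma tail_two {A : Type} [CommRing A] {δ : ℕ} (hA : FGD A δ) {σ : ℝ}
    (hσ : (δ : ℝ) + 1 / 2 < σ) :
    Summable fun x : Nat.Primes × ℕ => |if x.2 = 1 then 0 else (hN A x : ℝ)| * pr σ x := by
  obtain ⟨C, hC⟩ := hA.hN_le
  have h1 := (summable_pr_two (σ := σ - δ) (by linarith)).mul_left (C : ℝ)
  refine Summable.of_nonneg_of_le (fun x => mul_nonneg (abs_nonneg _) (pr_nonneg _ _))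
    (fun x => ?_) h1
  by_cases h2 : x.2 = 1
  · rw [if_pos h2, if_pos h2, abs_zero, zero_mul, mul_zero]
  · rw [if_neg h2, if_neg h2, abs_of_nonneg (Nat.cast_nonneg _ : (0 : ℝ) ≤ hN A x)]
    by_cases hx : x.2 = 0
    · rw [pr_eq_zero σ hx, mul_zero]
      exact mul_nonneg (Nat.cast_nonneg _) (pr_nonneg _ x)
    · rw [← pow_mul_pr δ σ x, ← mul_assoc]
      apply mul_le_mul_of_nonneg_right _ (pr_nonneg σ x)
      exact_mod_cast hC x hx

lemma trOn_zero {S : PolyRing} {a b : ℕ} (hn : Num a b) (hP : IsCab a b S.P) {δ : ℕ}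
    (hA : FGD S.R δ) : TrOn S ((δ : ℝ) + 1) := by
  obtain ⟨C, hC, hC'⟩ := WPU.weil_on hn
  have hq1 := fun x => one_le_qx x
  refine ⟨C, fun x => if x.2 = 1 then √(qx x) else (qx x) ^ (3 / 4 : ℝ), hC, ?_, ?_, ?_, ?_, ?_⟩
  · intro x
    have : 0 ≤ qx x := by linarith [hq1 x]
    simp only
    split_ifs
    · positivity
    · positivity
  · intro x
    have h0 : 0 ≤ qx x := by linarith [hq1 x]
    simp only
    split_ifs
    · rw [Real.sqrt_le_left h0]
      nlinarith [hq1 x]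
    · calc (qx x) ^ (3 / 4 : ℝ) ≤ (qx x) ^ (1 : ℝ) :=
            Real.rpow_le_rpow_of_exponent_le (hq1 x) (by norm_num)
        _ = qx x := Real.rpow_one _
  · intro x hx ψ
    exact hC' x hx _ (hP.map ψ)
  · intro σ hσ
    have h1 := hA.summable (σ := σ - 1 / 2) (by linarith)
    have h2 := tail_two hA (σ := σ - 3 / 4) (by linarith)
    refine Summable.of_nonneg_of_le (fun x => ?_) (fun x => ?_) (h1.add h2)
    · have : 0 ≤ qx x := by linarith [hq1 x]
      refine mul_nonneg (mul_nonneg (Nat.cast_nonneg _) ?_) (pr_nonneg _ _)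
      show 0 ≤ if x.2 = 1 then √(qx x) else (qx x) ^ (3 / 4 : ℝ)
      split_ifs <;> positivity
    · have hp1 := pr_nonneg (σ - 1 / 2) x
      have hp2 := pr_nonneg (σ - 3 / 4) x
      have hN0 : (0 : ℝ) ≤ hN S.R x := Nat.cast_nonneg _
      by_cases h : x.2 = 1
      · simp only [if_pos h]
        rw [abs_zero, zero_mul, add_zero, mul_assoc, ← sqrt_mul_pr]
        exact le_rfl
      · simp only [if_neg h]
        rw [abs_of_nonneg hN0, mul_assoc, rpow_mul_pr]
        have := mul_nonneg hN0 hp1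
        linarith
  · intro σ hσ
    have h1 := hA.summable (σ := σ + 1 / 2) (by linarith)
    have h2 := tail_two hA (σ := σ - 1 / 4) (by linarith)
    refine Summable.of_nonneg_of_le (fun x => ?_) (fun x => ?_) (h1.add h2)
    · have : 0 ≤ qx x := by linarith [hq1 x]
      refine mul_nonneg (mul_nonneg (Nat.cast_nonneg _) (div_nonneg (pow_nonneg ?_ _)
        (by positivity))) (pr_nonneg _ _)
      show 0 ≤ if x.2 = 1 then √(qx x) else (qx x) ^ (3 / 4 : ℝ)
      split_ifs <;> positivity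
    · have hp1 := pr_nonneg (σ + 1 / 2) x
      have hp2 := pr_nonneg (σ - 1 / 4) x
      have hN0 : (0 : ℝ) ≤ hN S.R x := Nat.cast_nonneg _
      have hq0 : 0 < qx x := by linarith [hq1 x]
      by_cases h : x.2 = 1
      · simp only [if_pos h]
        rw [abs_zero, zero_mul, add_zero, mul_assoc]
        have e1 : √(qx x) ^ 3 / qx x ^ 2 = (qx x) ^ (-(1 / 2) : ℝ) := by
          rw [Real.sqrt_eq_rpow, ← Real.rpow_natCast ((qx x) ^ (1 / 2 : ℝ)) 3,
            ← Real.rpow_mul hq0.le, ← Real.rpow_natCast (qx x) 2, ← Real.rpow_sub hq0]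
          norm_num
        rw [e1, rpow_mul_pr]
        have e2 : σ - -(1 / 2) = σ + 1 / 2 := by ring
        rw [e2]
      · simp only [if_neg h]
        rw [abs_of_nonneg hN0, mul_assoc]
        have e1 : ((qx x) ^ (3 / 4 : ℝ)) ^ 3 / qx x ^ 2 = (qx x) ^ (1 / 4 : ℝ) := by
          rw [← Real.rpow_natCast ((qx x) ^ (3 / 4 : ℝ)) 3,
            ← Real.rpow_mul hq0.le, ← Real.rpow_natCast (qx x) 2, ← Real.rpow_sub hq0]
          norm_num
        rw [e1, rpow_mul_pr]
        have := mul_nonneg hN0 hp1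
        linarith

lemma trOn_prime {S : PolyRing} {a b : ℕ} (hn : Num a b) (hP : IsCab a b S.P) {p : ℕ}
    (hp : p.Prime) {d : ℕ} (hA : SZp.FGDp p S.R d) : TrOn S (d : ℝ) := by
  have hpf : Fact p.Prime := ⟨hp⟩
  obtain ⟨C, hC, hC'⟩ := LSPA.weil_allP p hn
  have hq1 := fun x => one_le_qx x
  refine ⟨C, fun x => √(qx x), hC, fun x => Real.sqrt_nonneg _, ?_, ?_, ?_, ?_⟩
  · intro x
    have h0 : 0 ≤ qx x := by linarith [hq1 x]
    show √(qx x) ≤ qx x
    rw [Real.sqrt_le_left h0]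
    nlinarith [hq1 x]
  · intro x hx ψ
    have hfin : Finite (GF x.1 x.2) := RED.finite_GF hx
    have hch : CharP S.R p := hA.charp
    have hc : CharP (GF x.1 x.2) p := by
      have h0 : ((p : ℕ) : GF x.1 x.2) = 0 := by
        rw [← map_natCast ψ, CharP.cast_eq_zero, map_zero]
      have hx1 : Fact (x.1 : ℕ).Prime := ⟨x.1.2⟩
      have h1 : CharP (GF x.1 x.2) (x.1 : ℕ) := inferInstance
      have h2 : (x.1 : ℕ) ∣ p := (CharP.cast_eq_zero_iff (GF x.1 x.2) (x.1 : ℕ) p).1 h0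
      have h3 : (x.1 : ℕ) = p := (Nat.prime_dvd_prime_iff_eq x.1.2 hp).1 h2
      rw [← h3]
      exact h1
    have h4 := hC' (GF x.1 x.2) _ (hP.map ψ)
    rw [RED.card_eq hx] at h4
    exact h4
  · intro σ hσ
    have h1 := hA.summable (σ := σ - 1 / 2) (by linarith)
    refine h1.congr fun x => ?_
    rw [mul_assoc, ← sqrt_mul_pr]
    rfl
  · intro σ hσ
    have h1 := hA.summable (σ := σ + 1 / 2) (by linarith)
    refine h1.congr fun x => ?_
    have hq0 : 0 < qx x := by linarith [hq1 x]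
    have e1 : √(qx x) ^ 3 / qx x ^ 2 = (qx x) ^ (-(1 / 2) : ℝ) := by
      rw [Real.sqrt_eq_rpow, ← Real.rpow_natCast ((qx x) ^ (1 / 2 : ℝ)) 3,
        ← Real.rpow_mul hq0.le, ← Real.rpow_natCast (qx x) 2, ← Real.rpow_sub hq0]
      norm_num
    have e2 : σ - -(1 / 2) = σ + 1 / 2 := by ring
    rw [e1, mul_assoc, rpow_mul_pr, e2]

/-- **The bounds for the traces hold for every family.** -/
theorem trOn_of {S : PolyRing} [IsDomain S.R] [Algebra.FiniteType ℤ S.R] {a b : ℕ}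
    (hn : Num a b) (hP : IsCab a b S.P) {d : ℕ} (hd : HasDim S.R d) : TrOn S (d : ℝ) := by
  rcases hd.cases with ⟨δ, hc, hδ, rfl⟩ | ⟨p, hp, hF⟩
  · have h := trOn_zero hn hP (S := S) (δ := δ) ⟨inferInstance, hc, inferInstance, hδ⟩
    push_cast
    exact h
  · exact trOn_prime hn hP hp hF

end Pool.Agent.REDU
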